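import Pool.Agent.H10.RP.Final

/-!
In every base `b ≥ 2` almost all (admissible) positive integers are the sum of the digital reverse of a
prime and a prime: all but `O(X / (log X)^A)` of the `M ≤ X`, for every `A`, and with at least
`c M / (log M)^2` representations.
-/

set_option autoImplicit false

namespace Pool.Agent.Results.MP_134091_nt.AlmostAllRepresentable

/-- the integer whose base-`b` digits are those of `n` in the opposite order -/
def digitRev (b n : ℕ) : ℕ := Nat.ofDigits b (Nat.digits b n).reverse

/-- the primes `p < M` not divisible by `b` such that `M` is the sum of the reverse of `p` and a prime -/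
def reps (b M : ℕ) : Set ℕ :=
  {p : ℕ | p < M ∧ p.Prime ∧ ¬ b ∣ p ∧ ∃ r : ℕ, r.Prime ∧ digitRev b p + r = M}

theorem reps_ncard (b M : ℕ) : (reps b M).ncard = Pool.Agent.H10.RP.repCount b M := by
  unfold Pool.Agent.H10.RP.repCount
  rw [← Set.ncard_coe_finset]
  congr 1
  ext p
  simp only [reps, Set.mem_setOf_eq, Finset.coe_filter, Finset.mem_range]
  constructor
  · rintro ⟨h1, h2, h3, r, hr, h4⟩
    refine ⟨h1, h2, h3, ?_⟩
    have h5 : M - Nat.ofDigits b (Nat.digits b p).reverse = r := by
      unfold digitRev at h4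
      omega
    rw [h5]
    exact hr
  · rintro ⟨h1, h2, h3, h4⟩
    refine ⟨h1, h2, h3, M - Nat.ofDigits b (Nat.digits b p).reverse, h4, ?_⟩
    have h5 := h4.pos
    unfold digitRev
    omega

/-- For every base `b ≥ 2` there is `c > 0` such that for every `A` there is `C` with: for all `X ≥ 2`, all but
at most `C X / (log X)^A` of the integers `M ≤ X` (of the even `M ≤ X` if `b` is odd or `b = 2`) have at least
`c M / (log M)^2` primes `p < M`, `b ∤ p`, for which `M` is the sum of the reverse of `p` and a prime. -/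
theorem result (b : ℕ) (hb : 2 ≤ b) : ∃ c : ℝ, 0 < c ∧ ∀ A : ℝ, ∃ C : ℝ, ∀ X : ℕ, 2 ≤ X →
    (Nat.card {M : ℕ // M ≤ X ∧ ((Odd b ∨ b = 2) → Even M) ∧
      ((reps b M).ncard : ℝ) < c * M / (Real.log M) ^ 2} : ℝ) ≤ C * X * (Real.log X) ^ (-A) := by
  simp only [reps_ncard]
  exact Pool.Agent.H10.RP.almost_all b hb

end Pool.Agent.Results.MP_134091_nt.AlmostAllRepresentable
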